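import Pool.Agent.K3h16.SF.Stm

/-!
# Brick NIL of project SF (helper25)
-/

set_option autoImplicit false

namespace Pool.Agent.K3h25.SF

open Pool.Agent.K3h16.SF Pool.Agent.Y112.KD Pool.Agent.R905 CategoryTheory MonoidalCategory
open Polynomial

theorem t_NIL : S_NIL := by
  intro R _ _ x P hmon hX hP hid
  have hP0 : P ≠ 0 := hmon.ne_zero
  obtain ⟨Q, hPQ, hnd⟩ := Polynomial.exists_eq_pow_rootMultiplicity_mul_and_not_dvd P hP0 0
  rw [C_0, sub_zero] at hPQ hnd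
  have hk : P.rootMultiplicity 0 ≠ 0 := by
    intro h0
    rw [h0, pow_zero, one_mul] at hPQ
    exact hnd (hPQ ▸ hX)
  obtain ⟨m, hm⟩ := Nat.exists_eq_succ_of_ne_zero hk
  rw [hm, Nat.succ_eq_add_one] at hPQ
  have hcop : IsCoprime (X ^ (m + 1) : ℚ[X]) Q :=
    IsCoprime.pow_left ((Polynomial.irreducible_X.coprime_iff_not_dvd).2 hnd)
  obtain ⟨A, B, hAB⟩ := hcop
  have he : aeval x (A * X ^ m) * x = aeval x (A * X ^ (m + 1)) := by
    rw [pow_succ, ← mul_assoc, map_mul (aeval x) (A * X ^ m) X, aeval_X]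
  have hidem : aeval x (A * X ^ (m + 1)) * aeval x (A * X ^ (m + 1)) =
      aeval x (A * X ^ (m + 1)) := by
    have h1 : A * X ^ (m + 1) * (A * X ^ (m + 1)) = A * X ^ (m + 1) - A * B * P := by
      have h2 : A * X ^ (m + 1) = 1 - B * Q := by rw [← hAB]; ring
      rw [hPQ]
      calc A * X ^ (m + 1) * (A * X ^ (m + 1)) = A * X ^ (m + 1) * (1 - B * Q) := by rw [← h2]
        _ = A * X ^ (m + 1) - A * B * (X ^ (m + 1) * Q) := by ring
    rw [← map_mul, h1, map_sub, map_mul (aeval x) (A * B) P, hP, mul_zero, sub_zero]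
  have he0 : aeval x (A * X ^ (m + 1)) = 0 := by
    have := hid (A * X ^ m) (by rw [he]; exact hidem)
    rwa [he] at this
  refine ⟨m, ?_⟩
  have h3 : (X ^ (m + 1) : ℚ[X]) = X ^ (m + 1) * (A * X ^ (m + 1)) + B * P := by
    rw [hPQ]
    calc (X ^ (m + 1) : ℚ[X]) = X ^ (m + 1) * (A * X ^ (m + 1) + B * Q) := by rw [hAB, mul_one]
      _ = _ := by ring
  have h4 : aeval x (X ^ (m + 1) : ℚ[X]) = 0 := by
    rw [h3, map_add, map_mul (aeval x) (X ^ (m + 1)) (A * X ^ (m + 1)), he0, mul_zero, map_mul, hP,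
      mul_zero, add_zero]
  simpa using h4

end Pool.Agent.K3h25.SF
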